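import Mathlib

/-! Project CIT FULL (MP_c95b3b_ag), step B, (5.6): no small relations.

A polynomial with integer coefficients which, over every tuple of `(N+1)`-th roots of unity, has
at least `m` roots of absolute value at least `L`, and the sum of whose absolute coefficients is
smaller than `L ^ m`, is zero. -/

namespace Pool.Agent.B5

open Polynomial

namespace NSR

/-- The Mahler measure bound: a polynomial with `m` distinct roots of absolute value `≥ L ≥ 1`. -/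
theorem leading_mul_pow_le (P : ℂ[X]) (m : ℕ) {L : ℝ} (hL : 1 ≤ L) (S : Finset ℂ)
    (hS : m ≤ S.card) (hy : ∀ y ∈ S, L ≤ ‖y‖ ∧ P.eval y = 0) (hP : P ≠ 0) :
    ‖P.leadingCoeff‖ * L ^ m ≤ P.sum fun _ a => ‖a‖ := by
  have h0 : S.val ≤ P.roots := by
    refine (Multiset.le_iff_subset S.nodup).2 fun y hyS => ?_
    rw [mem_roots hP]
    exact (hy y hyS).2
  have h1 : L ^ m ≤ (P.roots.map (fun a => max 1 ‖a‖)).prod := by
    obtain ⟨T, hT⟩ := Multiset.le_iff_exists_add.1 h0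
    rw [hT, Multiset.map_add, Multiset.prod_add]
    have h2 : L ^ m ≤ (S.val.map (fun a => max 1 ‖a‖)).prod := by
      change L ^ m ≤ ∏ a ∈ S, max 1 ‖a‖
      calc L ^ m ≤ L ^ S.card := pow_le_pow_right₀ hL hS
        _ = ∏ _a ∈ S, L := by rw [Finset.prod_const]
        _ ≤ ∏ a ∈ S, max 1 ‖a‖ :=
            Finset.prod_le_prod (fun _ _ => by linarith) fun a ha =>
              (hy a ha).1.trans (le_max_right _ _)
    have h3 : 1 ≤ (T.map (fun a => max 1 ‖a‖)).prod := by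
      refine Multiset.one_le_prod ?_
      intro x hx
      obtain ⟨a, -, rfl⟩ := Multiset.mem_map.1 hx
      exact le_max_left _ _
    calc L ^ m = L ^ m * 1 := (mul_one _).symm
      _ ≤ _ := mul_le_mul h2 h3 zero_le_one ((by positivity : (0 : ℝ) ≤ L ^ m).trans h2)
  calc ‖P.leadingCoeff‖ * L ^ m
      ≤ ‖P.leadingCoeff‖ * (P.roots.map (fun a => max 1 ‖a‖)).prod :=
        mul_le_mul_of_nonneg_left h1 (norm_nonneg _)
    _ = P.mahlerMeasure := (mahlerMeasure_eq_leadingCoeff_mul_prod_roots P).symm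
    _ ≤ _ := mahlerMeasure_le_sum_norm_coeff P

/-- Sum of the powers of a root of unity. -/
theorem geom_zero {n : ℕ} {z : ℂ} (hz : z ^ n = 1) (h1 : z ≠ 1) :
    ∑ k : Fin n, z ^ (k : ℕ) = 0 := by
  rw [Fin.sum_univ_eq_sum_range (fun k => z ^ k) n, geom_sum_eq h1, hz, sub_self, zero_div]

/-- Averages over the grid of roots of unity recover the coefficients. -/
theorem grid_average {d N : ℕ} (f : (Fin d → Fin (N + 1)) → ℂ) {ω : ℂ}
    (hω : IsPrimitiveRoot ω (N + 1)) (b : Fin d → Fin (N + 1)) :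
    ∑ k : Fin d → Fin (N + 1), (∑ a, f a * ∏ i, (ω ^ (k i : ℕ)) ^ (a i : ℕ)) *
      ∏ i, ((ω ^ (k i : ℕ)) ^ (b i : ℕ))⁻¹ = ((N : ℂ) + 1) ^ d * f b := by
  have h0 : ω ≠ 0 := hω.ne_zero (Nat.succ_ne_zero N)
  have hkey : ∀ a : Fin d → Fin (N + 1),
      ∑ k : Fin d → Fin (N + 1), (∏ i, (ω ^ (k i : ℕ)) ^ (a i : ℕ)) *
        ∏ i, ((ω ^ (k i : ℕ)) ^ (b i : ℕ))⁻¹ = if a = b then ((N : ℂ) + 1) ^ d else 0 := by
    intro a
    have h1 : ∀ k : Fin d → Fin (N + 1), (∏ i, (ω ^ (k i : ℕ)) ^ (a i : ℕ)) *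
        ∏ i, ((ω ^ (k i : ℕ)) ^ (b i : ℕ))⁻¹ =
        ∏ i, (ω ^ (a i : ℕ) * (ω ^ (b i : ℕ))⁻¹) ^ (k i : ℕ) := by
      intro k
      rw [← Finset.prod_mul_distrib]
      refine Finset.prod_congr rfl fun i _ => ?_
      rw [mul_pow, inv_pow, ← pow_mul, ← pow_mul, ← pow_mul, ← pow_mul, mul_comm (k i : ℕ),
        mul_comm (k i : ℕ)]
    simp_rw [h1]
    have h2 := Finset.prod_univ_sum (fun _ : Fin d => (Finset.univ : Finset (Fin (N + 1))))
      (fun i (j : Fin (N + 1)) => (ω ^ (a i : ℕ) * (ω ^ (b i : ℕ))⁻¹) ^ (j : ℕ))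
    rw [Fintype.piFinset_univ] at h2
    rw [← h2]
    by_cases hab : a = b
    · subst hab
      rw [if_pos rfl]
      have h3 : ∀ i : Fin d, ∑ j : Fin (N + 1),
          (ω ^ (a i : ℕ) * (ω ^ (a i : ℕ))⁻¹) ^ (j : ℕ) = (N : ℂ) + 1 := by
        intro i
        rw [mul_inv_cancel₀ (pow_ne_zero _ h0)]
        simp
      rw [Finset.prod_congr rfl fun i _ => h3 i, Finset.prod_const, Finset.card_univ,
        Fintype.card_fin]
    · rw [if_neg hab]
      obtain ⟨i, hi⟩ := Function.ne_iff.1 hab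
      refine Finset.prod_eq_zero (Finset.mem_univ i) ?_
      refine geom_zero ?_ ?_
      · rw [mul_pow, inv_pow, ← pow_mul, ← pow_mul, mul_comm (a i : ℕ), mul_comm (b i : ℕ),
          pow_mul, pow_mul, hω.pow_eq_one, one_pow, one_pow, inv_one, mul_one]
      · intro h
        have h3 : ω ^ (a i : ℕ) = ω ^ (b i : ℕ) := by
          have h4 := congrArg (· * ω ^ (b i : ℕ)) h
          simpa [mul_assoc, inv_mul_cancel₀ (pow_ne_zero (b i : ℕ) h0)] using h4
        exact hi (Fin.ext (hω.pow_inj (a i).2 (b i).2 h3))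
  calc ∑ k : Fin d → Fin (N + 1), (∑ a, f a * ∏ i, (ω ^ (k i : ℕ)) ^ (a i : ℕ)) *
      ∏ i, ((ω ^ (k i : ℕ)) ^ (b i : ℕ))⁻¹
      = ∑ a, f a * ∑ k : Fin d → Fin (N + 1), (∏ i, (ω ^ (k i : ℕ)) ^ (a i : ℕ)) *
        ∏ i, ((ω ^ (k i : ℕ)) ^ (b i : ℕ))⁻¹ := by
        simp_rw [Finset.sum_mul, Finset.mul_sum]
        rw [Finset.sum_comm]
        refine Finset.sum_congr rfl fun a _ => Finset.sum_congr rfl fun k _ => ?_
        ring
    _ = ∑ a, f a * (if a = b then ((N : ℂ) + 1) ^ d else 0) := by simp_rw [hkey]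
    _ = ((N : ℂ) + 1) ^ d * f b := by
        simp only [mul_ite, mul_zero, Finset.sum_ite_eq', Finset.mem_univ, if_true]
        ring

/-- Integers whose polynomial is `< 1` on the grid vanish. -/
theorem eq_zero_of_grid {d N : ℕ} (f : (Fin d → Fin (N + 1)) → ℤ)
    (h : ∀ ζ : Fin d → ℂ, (∀ i, ζ i ^ (N + 1) = 1) →
      ‖∑ a, (f a : ℂ) * ∏ i, ζ i ^ (a i : ℕ)‖ < 1) : f = 0 := by
  obtain ⟨ω, hω⟩ : ∃ ω : ℂ, IsPrimitiveRoot ω (N + 1) :=
    ⟨_, Complex.isPrimitiveRoot_exp (N + 1) (Nat.succ_ne_zero N)⟩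
  have hn : ‖ω‖ = 1 := hω.norm'_eq_one (Nat.succ_ne_zero N)
  funext b
  have h1 := grid_average (fun a => (f a : ℂ)) hω b
  have hpos : (0 : ℝ) < ((N : ℝ) + 1) ^ d := by positivity
  have h2 : ‖∑ k : Fin d → Fin (N + 1), (∑ a, (f a : ℂ) * ∏ i, (ω ^ (k i : ℕ)) ^ (a i : ℕ)) *
      ∏ i, ((ω ^ (k i : ℕ)) ^ (b i : ℕ))⁻¹‖ < ((N : ℝ) + 1) ^ d := by
    refine (norm_sum_le _ _).trans_lt ?_
    have h3 : ∀ k : Fin d → Fin (N + 1),
        ‖(∑ a, (f a : ℂ) * ∏ i, (ω ^ (k i : ℕ)) ^ (a i : ℕ)) *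
          ∏ i, ((ω ^ (k i : ℕ)) ^ (b i : ℕ))⁻¹‖ < 1 := by
      intro k
      rw [norm_mul, norm_prod]
      have h4 : ∏ i, ‖((ω ^ (k i : ℕ)) ^ (b i : ℕ))⁻¹‖ = 1 := by
        refine Finset.prod_eq_one fun i _ => ?_
        rw [norm_inv, norm_pow, norm_pow, hn, one_pow, one_pow, inv_one]
      rw [h4, mul_one]
      refine h (fun i => ω ^ (k i : ℕ)) fun i => ?_
      rw [← pow_mul, mul_comm, pow_mul, hω.pow_eq_one, one_pow]
    calc ∑ k : Fin d → Fin (N + 1), ‖(∑ a, (f a : ℂ) * ∏ i, (ω ^ (k i : ℕ)) ^ (a i : ℕ)) *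
          ∏ i, ((ω ^ (k i : ℕ)) ^ (b i : ℕ))⁻¹‖
        < ∑ _k : Fin d → Fin (N + 1), (1 : ℝ) :=
          Finset.sum_lt_sum_of_nonempty Finset.univ_nonempty fun k _ => h3 k
      _ = ((N : ℝ) + 1) ^ d := by
          simp [Finset.card_univ]
  rw [h1, norm_mul, norm_pow] at h2
  have h3 : ‖(N : ℂ) + 1‖ = (N : ℝ) + 1 := by
    have : (N : ℂ) + 1 = ((N + 1 : ℕ) : ℂ) := by push_cast; ring
    rw [this, Complex.norm_natCast]
    push_cast
    ring
  rw [h3] at h2
  have h4 : ‖(f b : ℂ)‖ < 1 := by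
    by_contra hcon
    push Not at hcon
    have := mul_le_mul_of_nonneg_left hcon hpos.le
    linarith
  rw [Complex.norm_intCast] at h4
  have h5 : |f b| < 1 := by exact_mod_cast h4
  exact Int.abs_lt_one_iff.1 h5

end NSR

open NSR in
/-- NO SMALL RELATIONS. -/
theorem no_small_relations {d N M m : ℕ} {L : ℝ} (hL : 1 ≤ L)
    (c : Fin M → (Fin d → Fin (N + 1)) → ℤ)
    (h : ∀ ζ : Fin d → ℂ, (∀ i, ζ i ^ (N + 1) = 1) → ∃ S : Finset ℂ, m ≤ S.card ∧
      ∀ y ∈ S, L ≤ ‖y‖ ∧ ∑ j, ∑ a, (c j a : ℂ) * ((∏ i, ζ i ^ (a i : ℕ)) * y ^ (j : ℕ)) = 0)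
    (hc : ∑ j, ∑ a, |(c j a : ℝ)| < L ^ m) : c = 0 := by
  by_contra hne
  have hex : ∃ j, c j ≠ 0 := Function.ne_iff.1 hne
  set T : Finset (Fin M) := Finset.univ.filter fun j => c j ≠ 0 with hT
  have hTn : T.Nonempty := by
    obtain ⟨j, hj⟩ := hex
    exact ⟨j, by simp [hT, hj]⟩
  set e := T.max' hTn with he
  have heT : c e ≠ 0 := by
    have := T.max'_mem hTn
    rw [← he, hT, Finset.mem_filter] at this
    exact this.2
  have hgt : ∀ j, e < j → c j = 0 := by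
    intro j hj
    by_contra hj0
    have : j ≤ e := T.le_max' j (by simp [hT, hj0])
    exact absurd hj (not_lt.2 this)
  apply heT
  refine eq_zero_of_grid (c e) fun ζ hζ => ?_
  by_cases hF : ∑ a, (c e a : ℂ) * ∏ i, ζ i ^ (a i : ℕ) = 0
  · rw [hF, norm_zero]
    exact one_pos
  have hζn : ∀ i, ‖ζ i‖ = 1 := fun i => Complex.norm_eq_one_of_pow_eq_one (hζ i) (Nat.succ_ne_zero N)
  set g : Fin M → ℂ := fun j => ∑ a, (c j a : ℂ) * ∏ i, ζ i ^ (a i : ℕ) with hg
  set P : ℂ[X] := ∑ j, C (g j) * X ^ (j : ℕ) with hPdef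
  have hcoeff : ∀ n : ℕ, P.coeff n = if hn : n < M then g ⟨n, hn⟩ else 0 := by
    intro n
    rw [hPdef, finsetSum_coeff]
    simp_rw [coeff_C_mul, coeff_X_pow]
    split_ifs with hn
    · rw [Finset.sum_eq_single (⟨n, hn⟩ : Fin M)]
      · simp
      · intro j _ hj
        rw [if_neg, mul_zero]
        intro h'
        exact hj (Fin.ext h'.symm)
      · intro h'
        exact absurd (Finset.mem_univ _) h'
    · refine Finset.sum_eq_zero fun j _ => ?_
      rw [if_neg, mul_zero]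
      intro h'
      exact hn (h' ▸ j.2)
  have hce : P.coeff (e : ℕ) = g e := by
    rw [hcoeff, dif_pos e.2]
  have hcg : ∀ n : ℕ, (e : ℕ) < n → P.coeff n = 0 := by
    intro n hn
    rw [hcoeff]
    split_ifs with hn'
    · have h1 : c ⟨n, hn'⟩ = 0 := hgt _ (by exact hn)
      simp [hg, h1]
    · rfl
  have hdeg : P.natDegree = e := by
    refine le_antisymm ?_ ?_
    · exact natDegree_le_iff_coeff_eq_zero.2 hcg
    · exact le_natDegree_of_ne_zero (by rw [hce]; exact hF)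
  have hlc : P.leadingCoeff = g e := by
    rw [leadingCoeff, hdeg, hce]
  have hP0 : P ≠ 0 := by
    intro h'
    rw [h', coeff_zero] at hce
    exact hF hce.symm
  obtain ⟨S, hS, hy⟩ := h ζ hζ
  have heval : ∀ y, P.eval y =
      ∑ j, ∑ a, (c j a : ℂ) * ((∏ i, ζ i ^ (a i : ℕ)) * y ^ (j : ℕ)) := by
    intro y
    rw [hPdef, eval_finsetSum]
    refine Finset.sum_congr rfl fun j _ => ?_
    rw [eval_mul, eval_C, eval_pow, eval_X, hg, Finset.sum_mul]
    refine Finset.sum_congr rfl fun a _ => ?_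
    ring
  have h1 := leading_mul_pow_le P m hL S hS
    (fun y hyS => ⟨(hy y hyS).1, by rw [heval]; exact (hy y hyS).2⟩) hP0
  have h2 : (P.sum fun _ a => ‖a‖) ≤ ∑ j, ∑ a, |(c j a : ℝ)| := by
    have h3 : (P.sum fun _ a => ‖a‖) = ∑ n ∈ Finset.range M, ‖P.coeff n‖ := by
      rw [sum_def]
      refine Finset.sum_subset ?_ ?_
      · intro n hn
        rw [Finset.mem_range]
        by_contra hcon
        have := hcoeff n
        rw [dif_neg hcon] at this
        exact (mem_support_iff.1 hn) this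
      · intro n _ hn
        rw [notMem_support_iff.1 hn, norm_zero]
    rw [h3, ← Fin.sum_univ_eq_sum_range (fun n => ‖P.coeff n‖) M]
    refine Finset.sum_le_sum fun j _ => ?_
    rw [hcoeff, dif_pos j.2]
    refine (norm_sum_le _ _).trans (Finset.sum_le_sum fun a _ => ?_)
    rw [norm_mul, norm_prod]
    have h4 : ∏ i, ‖ζ i ^ (a i : ℕ)‖ = 1 := by
      refine Finset.prod_eq_one fun i _ => ?_
      rw [norm_pow, hζn, one_pow]
    rw [h4, mul_one, Complex.norm_intCast]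
  rw [hlc] at h1
  have hLm : 0 < L ^ m := by positivity
  have h5 : ‖g e‖ * L ^ m < 1 * L ^ m := by
    rw [one_mul]
    exact (h1.trans h2).trans_lt hc
  exact lt_of_mul_lt_mul_right h5 hLm.le

/-- A point of a grid off finitely many proper affine hyperplanes. -/
theorem exists_grid_point {R : ℕ} {J : Type*} [Fintype J] (α : J → ℂ) (β : J → Fin R → ℂ)
    (h : ∀ j, α j ≠ 0 ∨ β j ≠ 0) :
    ∃ t : Fin R → ℕ, (∀ i, t i ≤ Fintype.card J) ∧ ∀ j, α j + ∑ i, (t i : ℂ) * β j i ≠ 0 := by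
  classical
  set p : J → MvPolynomial (Fin R) ℂ := fun j =>
    MvPolynomial.C (α j) + ∑ i, MvPolynomial.X i * MvPolynomial.C (β j i) with hp
  have hp0 : ∀ j, p j ≠ 0 := by
    intro j hj
    have h1 : α j = 0 := by
      have := congrArg (MvPolynomial.eval (fun _ => (0 : ℂ))) hj
      simpa [hp] using this
    have h2 : β j = 0 := by
      funext i
      have := congrArg (MvPolynomial.eval (Pi.single i (1 : ℂ))) hj
      simpa [hp, h1, Pi.single_apply] using this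
    rcases h j with h' | h'
    · exact h' h1
    · exact h' h2
  set P := ∏ j, p j with hP
  have hP0 : P ≠ 0 := Finset.prod_ne_zero_iff.2 fun j _ => hp0 j
  have hdeg : ∀ i, P.degreeOf i < (Finset.range (Fintype.card J + 1)).card := by
    intro i
    rw [Finset.card_range, Nat.lt_succ_iff]
    refine (MvPolynomial.degreeOf_prod_le _ _ _).trans ?_
    have h1 : ∀ j ∈ (Finset.univ : Finset J), (p j).degreeOf i ≤ 1 := by
      intro j _
      refine (MvPolynomial.degreeOf_le_totalDegree _ _).trans ?_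
      refine (MvPolynomial.totalDegree_add _ _).trans (max_le ?_ ?_)
      · rw [MvPolynomial.totalDegree_C]
        exact zero_le_one
      · refine (MvPolynomial.totalDegree_finsetSum_le fun k _ => ?_)
        refine (MvPolynomial.totalDegree_mul _ _).trans ?_
        rw [MvPolynomial.totalDegree_C, add_zero]
        exact (MvPolynomial.totalDegree_X k).le
    calc ∑ j, (p j).degreeOf i ≤ ∑ _j : J, 1 := Finset.sum_le_sum h1
      _ = Fintype.card J := by simp
  by_contra hcon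
  push Not at hcon
  apply hP0
  refine MvPolynomial.eq_zero_of_eval_zero_at_prod_finset P
    (fun _ : Fin R => (Finset.range (Fintype.card J + 1)).image (fun n : ℕ => (n : ℂ))) ?_ ?_
  · intro i
    rw [Finset.card_image_of_injective _ Nat.cast_injective]
    exact hdeg i
  · intro x hx
    have h1 : ∀ i, ∃ n : ℕ, n ≤ Fintype.card J ∧ (n : ℂ) = x i := by
      intro i
      obtain ⟨n, hn, hn'⟩ := Finset.mem_image.1 (hx i)
      exact ⟨n, Nat.lt_succ_iff.1 (Finset.mem_range.1 hn), hn'⟩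
    choose t ht htx using h1
    obtain ⟨j, hj⟩ := hcon t ht
    rw [hP, map_prod]
    refine Finset.prod_eq_zero (Finset.mem_univ j) ?_
    rw [← hj]
    simp [hp, htx]

end Pool.Agent.B5
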